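import Pool.Agent.Lib_helper2.EFD.W.MA

set_option autoImplicit false

namespace Pool.Agent.EFD

/-- the fractional shares -/
theorem mg_frac {ι : Type} [Fintype ι] [DecidableEq ι] (ua uc : ι → ℝ) (mu : ℝ)
    (ha0 : ∀ g, 0 ≤ ua g) (hc0 : ∀ g, 0 ≤ uc g)
    (ha1 : ∑ g, ua g = 1) (hc1 : ∑ g, uc g = 1) (hmu0 : 0 < mu) (hmu : mu ≤ 1 / 15000)
    (hd : 30000 * mu ≤ ∑ g, |ua g - uc g|) (U : Finset ι) (wa wc ta tc : ℝ)
    (hUa : ∑ g ∈ U, ua g = 1 - wa - ta) (hUc : ∑ g ∈ U, uc g = 1 - wc - tc) (hta0 : 0 ≤ ta)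
    (hta : ta ≤ 10 * mu) (htc0 : 0 ≤ tc) (htc : tc ≤ 30 * mu) (hwa0 : 0 ≤ wa)
    (hw : 3 * wa ≤ wc) (hwc : wc ≤ 1 / 2) :
    ∃ p : ι → ℝ, (∀ g, 0 ≤ p g) ∧ (∀ g, p g ≤ 1) ∧
      (∑ g ∈ U, p g * ua g = 1 / 3 - wa - 594 * mu) ∧
      1 / 3 - wc + 18 * mu ≤ ∑ g ∈ U, p g * uc g := by
  have hU0 : 0 < 1 - wa - ta := by linarith
  by_cases hcase : 1866 * mu ≤ wc
  · -- constant share
    refine ⟨fun _ => (1 / 3 - wa - 594 * mu) / (1 - wa - ta), ?_, ?_, ?_, ?_⟩
    · intro g
      exact div_nonneg (by linarith) hU0.le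
    · intro g
      rw [div_le_one hU0]
      linarith
    · rw [← Finset.mul_sum, hUa]
      field_simp
    · rw [← Finset.mul_sum, hUc]
      have h1 : 0 ≤ (1 / 3 - wa - 594 * mu) * (1 - wc - tc) :=
        mul_nonneg (by linarith) (by linarith)
      have h2 : (1 / 3 - wa - 594 * mu) * (1 - wc - tc) ≤
          (1 / 3 - wa - 594 * mu) / (1 - wa - ta) * (1 - wc - tc) := by
        rw [div_mul_eq_mul_div, le_div_iff₀ hU0]
        nlinarith
      have h3 : 0 ≤ (wa + 594 * mu) * (wc + tc) :=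
        mul_nonneg (by linarith) (by linarith)
      nlinarith
  · -- more for the goods which `c` likes more
    have hcase' : wc < 1866 * mu := not_le.1 hcase
    set G : Finset ι := U.filter (fun g => ua g < uc g) with hG
    have hGa0 : 0 ≤ ∑ g ∈ G, ua g := Finset.sum_nonneg (fun g _ => ha0 g)
    have hGa1 : ∑ g ∈ G, ua g ≤ 1 - wa - ta := by
      rw [← hUa]
      exact Finset.sum_le_sum_of_subset_of_nonneg (Finset.filter_subset _ _) (fun g _ _ => ha0 g)
    set bet : ℝ := (1 / 3 - wa - 594 * mu - 1 / 4 * ∑ g ∈ G, ua g) / (1 - wa - ta) with hbet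
    have hb0 : 0 ≤ bet := div_nonneg (by linarith) hU0.le
    have hb1 : bet ≤ 3 / 4 := by
      rw [hbet, div_le_iff₀ hU0]
      linarith
    have hbm : bet * (1 - wa - ta) = 1 / 3 - wa - 594 * mu - 1 / 4 * ∑ g ∈ G, ua g := by
      rw [hbet]
      field_simp
    -- the distance
    have hpos : ∑ g, |ua g - uc g| = 2 * ∑ g ∈ Finset.univ.filter (fun g => ua g < uc g),
        (uc g - ua g) := by
      have e1 : ∑ g, |ua g - uc g| = ∑ g, (2 * (if ua g < uc g then uc g - ua g else 0) +
          (ua g - uc g)) := by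
        apply Finset.sum_congr rfl
        intro g _
        by_cases h : ua g < uc g
        · rw [if_pos h, abs_of_neg (by linarith)]; ring
        · rw [if_neg h, abs_of_nonneg (by linarith)]; ring
      rw [e1, Finset.sum_add_distrib, ← Finset.mul_sum, Finset.sum_sub_distrib, ha1, hc1,
        Finset.sum_filter]
      ring
    have hout : ∑ g ∈ Finset.univ.filter (fun g => ua g < uc g), (uc g - ua g) ≤
        ∑ g ∈ G, (uc g - ua g) + (wc + tc) := by
      have e1 : ∑ g ∈ Finset.univ \ U, uc g = wc + tc := by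
        have := Finset.sum_sdiff (f := uc) (Finset.subset_univ U)
        rw [hUc, hc1] at this
        linarith
      have e2 : Finset.univ.filter (fun g => ua g < uc g) =
          G ∪ (Finset.univ \ U).filter (fun g => ua g < uc g) := by
        ext g
        simp only [hG, Finset.mem_filter, Finset.mem_univ, true_and, Finset.mem_union,
          Finset.mem_sdiff]
        tauto
      have e3 : Disjoint G ((Finset.univ \ U).filter (fun g => ua g < uc g)) := by
        rw [Finset.disjoint_left]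
        intro g hg hg'
        simp only [hG, Finset.mem_filter, Finset.mem_univ, true_and, Finset.mem_sdiff] at hg hg'
        exact hg'.1 hg.1
      rw [e2, Finset.sum_union e3]
      have e4 : ∑ g ∈ (Finset.univ \ U).filter (fun g => ua g < uc g), (uc g - ua g) ≤
          ∑ g ∈ Finset.univ \ U, uc g := by
        calc ∑ g ∈ (Finset.univ \ U).filter (fun g => ua g < uc g), (uc g - ua g)
            ≤ ∑ g ∈ (Finset.univ \ U).filter (fun g => ua g < uc g), uc g :=
              Finset.sum_le_sum (fun g _ => by linarith [ha0 g])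
          _ ≤ ∑ g ∈ Finset.univ \ U, uc g :=
              Finset.sum_le_sum_of_subset_of_nonneg (Finset.filter_subset _ _)
                (fun g _ _ => hc0 g)
      linarith
    have hGd : 13104 * mu ≤ ∑ g ∈ G, (uc g - ua g) := by linarith
    refine ⟨fun g => (if ua g < uc g then 1 / 4 else 0) + bet, ?_, ?_, ?_, ?_⟩
    · intro g
      show 0 ≤ (if ua g < uc g then (1 : ℝ) / 4 else 0) + bet
      split_ifs <;> linarith
    · intro g
      show (if ua g < uc g then (1 : ℝ) / 4 else 0) + bet ≤ 1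
      split_ifs <;> linarith
    · have e : ∑ g ∈ U, ((if ua g < uc g then (1 : ℝ) / 4 else 0) + bet) * ua g =
          1 / 4 * ∑ g ∈ G, ua g + bet * ∑ g ∈ U, ua g := by
        rw [hG, Finset.sum_filter, Finset.mul_sum, Finset.mul_sum, ← Finset.sum_add_distrib]
        apply Finset.sum_congr rfl
        intro g _
        split_ifs <;> ring
      rw [e, hUa, hbm]
      ring
    · have e : ∑ g ∈ U, ((if ua g < uc g then (1 : ℝ) / 4 else 0) + bet) * uc g =
          (1 / 4 * ∑ g ∈ G, ua g + bet * ∑ g ∈ U, ua g) + 1 / 4 * ∑ g ∈ G, (uc g - ua g) +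
            bet * (∑ g ∈ U, uc g - ∑ g ∈ U, ua g) := by
        have e1 : 1 / 4 * ∑ g ∈ G, ua g + 1 / 4 * ∑ g ∈ G, (uc g - ua g) =
            1 / 4 * ∑ g ∈ G, uc g := by
          rw [Finset.sum_sub_distrib]; ring
        have e2 : ∑ g ∈ U, ((if ua g < uc g then (1 : ℝ) / 4 else 0) + bet) * uc g =
            1 / 4 * ∑ g ∈ G, uc g + bet * ∑ g ∈ U, uc g := by
          rw [hG, Finset.sum_filter, Finset.mul_sum, Finset.mul_sum, ← Finset.sum_add_distrib]
          apply Finset.sum_congr rfl
          intro g _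
          split_ifs <;> ring
        rw [e2]
        linarith
      rw [e, hUa, hUc, hbm]
      have hb2 : -(1896 * mu) ≤ bet * ((1 - wc - tc) - (1 - wa - ta)) := by
        by_cases h : 0 ≤ (1 - wc - tc) - (1 - wa - ta)
        · have := mul_nonneg hb0 h
          linarith
        · have h1 : (1 - wc - tc) - (1 - wa - ta) < 0 := not_le.1 h
          have h2 : 1 * ((1 - wc - tc) - (1 - wa - ta)) ≤ bet * ((1 - wc - tc) - (1 - wa - ta)) :=
            mul_le_mul_of_nonpos_right (by linarith) h1.le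
          linarith
      linarith

/-- case 2 (B): the integral assignment of the goods of `U` -/
theorem caseB_pr {ι : Type} [Fintype ι] [DecidableEq ι] (ua uc : ι → ℝ) (mu : ℝ)
    (ha0 : ∀ g, 0 ≤ ua g) (hc0 : ∀ g, 0 ≤ uc g) (ham : ∀ g, ua g ≤ mu) (hcm : ∀ g, uc g ≤ mu)
    (ha1 : ∑ g, ua g = 1) (hc1 : ∑ g, uc g = 1) (hmu0 : 0 < mu) (hmu : mu ≤ 1 / 15000)
    (hd : 30000 * mu ≤ ∑ g, |ua g - uc g|) (U : Finset ι) (wa wc ta tc : ℝ)
    (hUa : ∑ g ∈ U, ua g = 1 - wa - ta) (hUc : ∑ g ∈ U, uc g = 1 - wc - tc) (hta0 : 0 ≤ ta)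
    (hta : ta ≤ 10 * mu) (htc0 : 0 ≤ tc) (htc : tc ≤ 30 * mu) (hwa0 : 0 ≤ wa)
    (hw : 3 * wa ≤ wc) (hwc : wc ≤ 1 / 2) :
    ∃ σ : ι → Fin 3,
      (∑ g ∈ U, if σ g = 2 then ua g else 0) ≤ 1 / 3 - wa - 590 * mu ∧
      1 / 3 - wc + 14 * mu ≤ (∑ g ∈ U, if σ g = 2 then uc g else 0) ∧
      |(∑ g ∈ U, if σ g = 0 then ua g else 0) - ∑ g ∈ U, if σ g = 1 then ua g else 0| ≤ 8 * mu ∧
      |(∑ g ∈ U, if σ g = 0 then uc g else 0) - ∑ g ∈ U, if σ g = 1 then uc g else 0| ≤
        8 * mu := by
  obtain ⟨p, hp0, hp1, hpa, hpc⟩ := mg_frac ua uc mu ha0 hc0 ha1 hc1 hmu0 hmu hd U wa wc ta tc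
    hUa hUc hta0 hta htc0 htc hwa0 hw hwc
  obtain ⟨σ, hσ⟩ := rounding 4
    (fun r g j => if g ∈ U then (![if j = 2 then ua g else 0, if j = 2 then uc g else 0,
      (if j = 0 then ua g else 0) - (if j = 1 then ua g else 0),
      (if j = 0 then uc g else 0) - (if j = 1 then uc g else 0)] : Fin 4 → ℝ) r else 0)
    ![mu, mu, 2 * mu, 2 * mu]
    (by
      intro r
      fin_cases r
      · exact hmu0.le
      · exact hmu0.le
      · show 0 ≤ 2 * mu
        linarith
      · show 0 ≤ 2 * mu
        linarith)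
    (by
      intro r g j j'
      have h1 := ha0 g
      have h2 := hc0 g
      have h3 := ham g
      have h4 := hcm g
      show (if g ∈ U then (![if j = 2 then ua g else 0, if j = 2 then uc g else 0,
        (if j = 0 then ua g else 0) - (if j = 1 then ua g else 0),
        (if j = 0 then uc g else 0) - (if j = 1 then uc g else 0)] : Fin 4 → ℝ) r else 0) -
        (if g ∈ U then (![if j' = 2 then ua g else 0, if j' = 2 then uc g else 0,
        (if j' = 0 then ua g else 0) - (if j' = 1 then ua g else 0),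
        (if j' = 0 then uc g else 0) - (if j' = 1 then uc g else 0)] : Fin 4 → ℝ) r else 0) ≤
        (![mu, mu, 2 * mu, 2 * mu] : Fin 4 → ℝ) r
      by_cases hg : g ∈ U
      · rw [if_pos hg, if_pos hg]
        fin_cases r
        · show (if j = 2 then ua g else 0) - (if j' = 2 then ua g else 0) ≤ mu
          split_ifs <;> linarith
        · show (if j = 2 then uc g else 0) - (if j' = 2 then uc g else 0) ≤ mu
          split_ifs <;> linarith
        · show ((if j = 0 then ua g else 0) - (if j = 1 then ua g else 0)) -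
            ((if j' = 0 then ua g else 0) - (if j' = 1 then ua g else 0)) ≤ 2 * mu
          split_ifs <;> linarith
        · show ((if j = 0 then uc g else 0) - (if j = 1 then uc g else 0)) -
            ((if j' = 0 then uc g else 0) - (if j' = 1 then uc g else 0)) ≤ 2 * mu
          split_ifs <;> linarith
      · rw [if_neg hg, if_neg hg]
        fin_cases r
        · show (0 : ℝ) - 0 ≤ mu
          linarith
        · show (0 : ℝ) - 0 ≤ mu
          linarith
        · show (0 : ℝ) - 0 ≤ 2 * mu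
          linarith
        · show (0 : ℝ) - 0 ≤ 2 * mu
          linarith)
    (fun g => ![(1 - p g) / 2, (1 - p g) / 2, p g])
    (by
      intro g j
      have h1 := hp0 g
      have h2 := hp1 g
      fin_cases j
      · show 0 ≤ (1 - p g) / 2
        linarith
      · show 0 ≤ (1 - p g) / 2
        linarith
      · exact h1)
    (by
      intro g
      rw [Fin.sum_univ_three]
      show (1 - p g) / 2 + (1 - p g) / 2 + p g = 1
      ring)
  have mem : ∀ f : ι → ℝ, ∑ g, (if g ∈ U then f g else 0) = ∑ g ∈ U, f g := by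
    intro f
    rw [Finset.sum_ite_mem, Finset.univ_inter]
  refine ⟨σ, ?_, ?_, ?_, ?_⟩
  · have h := hσ 0
    have e1 : ∑ g, (if g ∈ U then (if σ g = 2 then ua g else 0) else 0) =
        ∑ g ∈ U, (if σ g = 2 then ua g else 0) := mem _
    have e2 : ∑ g, ∑ j : Fin 3, (![(1 - p g) / 2, (1 - p g) / 2, p g] : Fin 3 → ℝ) j *
        (if g ∈ U then (if j = 2 then ua g else 0) else 0) = 1 / 3 - wa - 594 * mu := by
      rw [← hpa, ← mem]
      apply Finset.sum_congr rfl
      intro g _
      rw [Fin.sum_univ_three]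
      by_cases hg : g ∈ U
      · simp [hg]
      · simp [hg]
    change |∑ g, (if g ∈ U then (if σ g = 2 then ua g else 0) else 0) -
      ∑ g, ∑ j : Fin 3, (![(1 - p g) / 2, (1 - p g) / 2, p g] : Fin 3 → ℝ) j *
        (if g ∈ U then (if j = 2 then ua g else 0) else 0)| ≤ ((4 : ℕ) : ℝ) * mu at h
    rw [e1, e2] at h
    have := (abs_le.1 h).2
    push_cast at this
    linarith
  · have h := hσ 1
    have e1 : ∑ g, (if g ∈ U then (if σ g = 2 then uc g else 0) else 0) =
        ∑ g ∈ U, (if σ g = 2 then uc g else 0) := mem _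
    have e2 : ∑ g, ∑ j : Fin 3, (![(1 - p g) / 2, (1 - p g) / 2, p g] : Fin 3 → ℝ) j *
        (if g ∈ U then (if j = 2 then uc g else 0) else 0) = ∑ g ∈ U, p g * uc g := by
      rw [← mem]
      apply Finset.sum_congr rfl
      intro g _
      rw [Fin.sum_univ_three]
      by_cases hg : g ∈ U
      · simp [hg]
      · simp [hg]
    change |∑ g, (if g ∈ U then (if σ g = 2 then uc g else 0) else 0) -
      ∑ g, ∑ j : Fin 3, (![(1 - p g) / 2, (1 - p g) / 2, p g] : Fin 3 → ℝ) j *
        (if g ∈ U then (if j = 2 then uc g else 0) else 0)| ≤ ((4 : ℕ) : ℝ) * mu at h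
    rw [e1, e2] at h
    have := (abs_le.1 h).1
    push_cast at this
    linarith
  · have h := hσ 2
    have e1 : ∑ g, (if g ∈ U then ((if σ g = 0 then ua g else 0) - (if σ g = 1 then ua g else 0))
        else 0) = (∑ g ∈ U, if σ g = 0 then ua g else 0) - ∑ g ∈ U, if σ g = 1 then ua g else 0 := by
      rw [mem, Finset.sum_sub_distrib]
    have e2 : ∑ g, ∑ j : Fin 3, (![(1 - p g) / 2, (1 - p g) / 2, p g] : Fin 3 → ℝ) j *
        (if g ∈ U then ((if j = 0 then ua g else 0) - (if j = 1 then ua g else 0)) else 0) = 0 := by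
      apply Finset.sum_eq_zero
      intro g _
      rw [Fin.sum_univ_three]
      by_cases hg : g ∈ U
      · simp [hg]
      · simp [hg]
    change |∑ g, (if g ∈ U then ((if σ g = 0 then ua g else 0) - (if σ g = 1 then ua g else 0))
        else 0) - ∑ g, ∑ j : Fin 3, (![(1 - p g) / 2, (1 - p g) / 2, p g] : Fin 3 → ℝ) j *
        (if g ∈ U then ((if j = 0 then ua g else 0) - (if j = 1 then ua g else 0)) else 0)| ≤
        ((4 : ℕ) : ℝ) * (2 * mu) at h
    rw [e1, e2, sub_zero] at h
    push_cast at h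
    linarith
  · have h := hσ 3
    have e1 : ∑ g, (if g ∈ U then ((if σ g = 0 then uc g else 0) - (if σ g = 1 then uc g else 0))
        else 0) = (∑ g ∈ U, if σ g = 0 then uc g else 0) - ∑ g ∈ U, if σ g = 1 then uc g else 0 := by
      rw [mem, Finset.sum_sub_distrib]
    have e2 : ∑ g, ∑ j : Fin 3, (![(1 - p g) / 2, (1 - p g) / 2, p g] : Fin 3 → ℝ) j *
        (if g ∈ U then ((if j = 0 then uc g else 0) - (if j = 1 then uc g else 0)) else 0) = 0 := by
      apply Finset.sum_eq_zero
      intro g _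
      rw [Fin.sum_univ_three]
      by_cases hg : g ∈ U
      · simp [hg]
      · simp [hg]
    change |∑ g, (if g ∈ U then ((if σ g = 0 then uc g else 0) - (if σ g = 1 then uc g else 0))
        else 0) - ∑ g, ∑ j : Fin 3, (![(1 - p g) / 2, (1 - p g) / 2, p g] : Fin 3 → ℝ) j *
        (if g ∈ U then ((if j = 0 then uc g else 0) - (if j = 1 then uc g else 0)) else 0)| ≤
        ((4 : ℕ) : ℝ) * (2 * mu) at h
    rw [e1, e2, sub_zero] at h
    push_cast at h
    linarith

end Pool.Agent.EFD
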